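import Mathlib

/-! Endotrivial operators: abstract linear algebra. -/

namespace Pool.Agent.Benson271

open TensorProduct

universe u

section ET

variable {k : Type u} [Field k]

/-- The derivation-type operator on a tensor product: `f ⊗ 1 + 1 ⊗ g`. -/
def dsumEnd {A B : Type u} [AddCommGroup A] [Module k A] [AddCommGroup B] [Module k B]
    (f : Module.End k A) (g : Module.End k B) : Module.End k (A ⊗[k] B) :=
  TensorProduct.map f LinearMap.id + TensorProduct.map LinearMap.id g

@[simp] theorem dsumEnd_tmul {A B : Type u} [AddCommGroup A] [Module k A] [AddCommGroup B]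
    [Module k B] (f : Module.End k A) (g : Module.End k B) (v : A) (w : B) :
    dsumEnd f g (v ⊗ₜ w) = f v ⊗ₜ w + v ⊗ₜ g w := by
  simp [dsumEnd]

/-- `ETdata z e l D`: the vector space is `k e ⊕ ker l`, both `z`-stable, `z e = 0`, and modulo the
projection onto `k e` one has `D z - z D = 1`. -/
structure ETdata {A : Type u} [AddCommGroup A] [Module k A] (z : Module.End k A)
    (e : A) (l : A →ₗ[k] k) (D : Module.End k A) : Prop where
  ze : z e = 0
  lz : ∀ v, l (z v) = 0
  le : l e = 1
  comm : ∀ v, D (z v) - z (D v) = v - l v • e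

/-- `z`-endotriviality. -/
def ET {A : Type u} [AddCommGroup A] [Module k A] (z : Module.End k A) : Prop :=
  ∃ (e : A) (l : A →ₗ[k] k) (D : Module.End k A), ETdata z e l D

variable {A B : Type u} [AddCommGroup A] [Module k A] [AddCommGroup B] [Module k B]

theorem ETdata.tensor {z : Module.End k A} {z' : Module.End k B} {e : A} {l : A →ₗ[k] k}
    {D : Module.End k A} {e' : B} {l' : B →ₗ[k] k} {D' : Module.End k B}
    (h : ETdata z e l D) (h' : ETdata z' e' l' D') :
    ETdata (dsumEnd z z') (e ⊗ₜ e') (LinearMap.mul' k k ∘ₗ TensorProduct.map l l')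
      (TensorProduct.map D LinearMap.id + TensorProduct.map (l.smulRight e) D') := by
  obtain ⟨h1, h2, h3, h4⟩ := h
  obtain ⟨h1', h2', h3', h4'⟩ := h'
  refine ⟨?_, ?_, ?_, ?_⟩
  · simp [h1, h1']
  · intro v
    induction v using TensorProduct.induction_on with
    | zero => simp
    | tmul a b => simp [h2, h2']
    | add x y hx hy => rw [map_add, map_add, hx, hy, add_zero]
  · simp [h3, h3']
  · intro v
    induction v using TensorProduct.induction_on with
    | zero => simp
    | tmul a b =>
      have e1 : D (z a) = z (D a) + (a - l a • e) := by rw [← h4]; abel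
      have e2 : D' (z' b) = z' (D' b) + (b - l' b • e') := by rw [← h4']; abel
      simp only [dsumEnd_tmul, LinearMap.add_apply, map_add, TensorProduct.map_tmul,
        LinearMap.id_apply, LinearMap.comp_apply, LinearMap.mul'_apply,
        LinearMap.smulRight_apply, h2, zero_smul, TensorProduct.zero_tmul, h1, map_smul, smul_zero,
        e1, e2, TensorProduct.add_tmul, TensorProduct.sub_tmul, TensorProduct.tmul_add,
        TensorProduct.tmul_sub, TensorProduct.smul_tmul', TensorProduct.tmul_smul, smul_smul]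
      rw [mul_comm (l' b) (l a)]
      abel
    | add x y hx hy =>
      simp only [map_add, add_smul]
      rw [show ∀ a b c d : A ⊗[k] B, a + b - (c + d) = (a - c) + (b - d) by intros; abel, hx, hy]
      abel

theorem ET.tensor {z : Module.End k A} {z' : Module.End k B} (h : ET z) (h' : ET z') :
    ET (dsumEnd z z') := by
  obtain ⟨e, l, D, h⟩ := h
  obtain ⟨e', l', D', h'⟩ := h'
  exact ⟨_, _, _, h.tensor h'⟩

theorem ET.dual {z : Module.End k A} (h : ET z) : ET (-(Module.Dual.transpose (R := k) z)) := by
  obtain ⟨e, l, D, h1, h2, h3, h4⟩ := h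
  refine ⟨l, Module.Dual.eval k A e, Module.Dual.transpose (R := k) D, ?_, ?_, ?_, ?_⟩
  · ext v
    simp [Module.Dual.transpose_apply, h2]
  · intro f
    simp [Module.Dual.transpose_apply, h1]
  · simpa using h3
  · intro f
    ext v
    have := congrArg f (h4 v)
    simp only [map_sub, map_smul, smul_eq_mul] at this
    simp only [Module.Dual.transpose_apply, LinearMap.neg_apply, map_neg, LinearMap.sub_apply,
      LinearMap.comp_apply, Module.Dual.eval_apply, LinearMap.smul_apply, smul_eq_mul]
    linear_combination this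

theorem ET.equiv {z : Module.End k A} {z' : Module.End k B} (φ : A ≃ₗ[k] B)
    (hφ : ∀ v, φ (z v) = z' (φ v)) (h : ET z) : ET z' := by
  obtain ⟨e, l, D, h1, h2, h3, h4⟩ := h
  have hφ' : ∀ w, φ.symm (z' w) = z (φ.symm w) := by
    intro w
    apply φ.injective
    rw [hφ]; simp
  refine ⟨φ e, l ∘ₗ φ.symm.toLinearMap, φ.toLinearMap ∘ₗ D ∘ₗ φ.symm.toLinearMap, ?_, ?_, ?_, ?_⟩
  · rw [← hφ, h1, map_zero]
  · intro v
    simp [hφ', h2]
  · simpa using h3
  · intro v
    simp only [LinearMap.comp_apply, LinearEquiv.coe_coe, hφ']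
    rw [← hφ, ← map_sub, h4, map_sub, map_smul]
    simp

theorem ET.triv : ET (0 : Module.End k k) :=
  ⟨1, LinearMap.id, 0, by simp, by simp, by simp, by simp⟩

section data

variable {z : Module.End k A} {e : A} {l : A →ₗ[k] k} {D : Module.End k A}

theorem ETdata.ker (h : ETdata z e l D) {g : A} (hg : z g = 0) : g = l g • e + z (-(D g)) := by
  have := h.comm g
  rw [hg, map_zero, zero_sub] at this
  rw [map_neg, this]; abel

theorem ETdata.inv (h : ETdata z e l D) {f : A →ₗ[k] k} (hf : ∀ v, f (z v) = 0) {g : A}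
    (hg : z g = 0) : f g = l g * f e := by
  conv_lhs => rw [h.ker hg]
  rw [map_add, hf, add_zero, map_smul, smul_eq_mul]

theorem ETdata.trace [FiniteDimensional k A] (h : ETdata z e l D) (φ : Module.End k A)
    (hφ : ∀ v, φ (z v) = z (φ v)) : LinearMap.trace k A φ = l (φ e) := by
  have h1 : φ = φ * D * z - z * (φ * D) + l.smulRight (φ e) := by
    ext v
    have := congrArg φ (h.comm v)
    simp only [map_sub, map_smul, hφ] at this
    simp only [LinearMap.add_apply, LinearMap.sub_apply, Module.End.mul_apply,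
      LinearMap.smulRight_apply]
    rw [this]; abel
  conv_lhs => rw [h1]
  rw [map_add, map_sub, LinearMap.trace_mul_comm k z (φ * D), sub_self, zero_add]
  rw [LinearMap.trace_smulRight]

theorem ETdata.trace_mul [FiniteDimensional k A] (h : ETdata z e l D) (φ ψ : Module.End k A)
    (hφ : ∀ v, φ (z v) = z (φ v)) (hψ : ∀ v, ψ (z v) = z (ψ v)) :
    LinearMap.trace k A (φ * ψ) = LinearMap.trace k A φ * LinearMap.trace k A ψ := by
  rw [h.trace φ hφ, h.trace ψ hψ, h.trace (φ * ψ) (by intro v; simp [hφ, hψ])]
  have h1 : z (ψ e) = 0 := by rw [← hψ, h.ze, map_zero]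
  have h2 : ∀ v, (l ∘ₗ φ) (z v) = 0 := by intro v; simp [hφ, h.lz]
  have := h.inv h2 h1
  simp only [LinearMap.comp_apply] at this
  rw [Module.End.mul_apply, this, mul_comm]

end data

theorem ET.trace_mul [FiniteDimensional k A] {z : Module.End k A} (h : ET z) (φ ψ : Module.End k A)
    (hφ : ∀ v, φ (z v) = z (φ v)) (hψ : ∀ v, ψ (z v) = z (ψ v)) :
    LinearMap.trace k A (φ * ψ) = LinearMap.trace k A φ * LinearMap.trace k A ψ := by
  obtain ⟨e, l, D, h⟩ := h
  exact h.trace_mul φ ψ hφ hψ

theorem ET.trace_one [FiniteDimensional k A] {z : Module.End k A} (h : ET z) :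
    LinearMap.trace k A 1 = 1 := by
  obtain ⟨e, l, D, h⟩ := h
  rw [h.trace 1 (by simp)]
  simpa using h.le

end ET

end Pool.Agent.Benson271
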