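import Pool.Agent.Benson271.Order

/-! Jordan block form of endotriviality. -/

namespace Pool.Agent.Benson271

open TensorProduct

universe u

/-- In a suitable basis, `z` has one Jordan block of length `1` and all its other Jordan blocks have
length divisible by `p`. -/
def OneBlock (p : ℕ) {k : Type u} [Field k] {A : Type u} [AddCommGroup A] [Module k A]
    (z : Module.End k A) : Prop :=
  ∃ (t : ℕ) (len : Fin t → ℕ) (B : Module.Basis (Option (Σ i : Fin t, Fin (len i))) k A),
    (∀ i, p ∣ len i) ∧ z (B none) = 0 ∧
    ∀ (i : Fin t) (j : Fin (len i)), z (B (some ⟨i, j⟩)) =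
      if h : j.1 + 1 < len i then B (some ⟨i, ⟨j.1 + 1, h⟩⟩) else 0

theorem OneBlock.et {p : ℕ} [hp : Fact p.Prime] {k : Type u} [Field k] [CharP k p] {A : Type u}
    [AddCommGroup A] [Module k A] {z : Module.End k A} (h : OneBlock p z) : ET z := by
  obtain ⟨t, len, B, h1, h2, h3⟩ := h
  let D : Module.End k A := B.constr k (fun o => match o with
    | none => 0
    | some ⟨i, j⟩ => if h : j.1 = 0 then 0 else ((j.1 : ℕ) : k) •
        B (some ⟨i, ⟨j.1 - 1, by omega⟩⟩))
  have hD0 : D (B none) = 0 := by simp [D]
  have hD : ∀ (i : Fin t) (j : Fin (len i)), D (B (some ⟨i, j⟩)) =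
      if h : j.1 = 0 then 0 else ((j.1 : ℕ) : k) • B (some ⟨i, ⟨j.1 - 1, by omega⟩⟩) := by
    intro i j; simp [D]
  have hc : ∀ (i : Fin t) (j : Fin (len i)), B.coord none (B (some ⟨i, j⟩)) = 0 := by
    intro i j; simp
  refine ⟨B none, B.coord none, D, h2, ?_, by simp, ?_⟩
  · intro v
    have : (B.coord none) ∘ₗ z = 0 := by
      refine B.ext fun o => ?_
      rcases o with _ | ⟨i, j⟩
      · simp [h2]
      · rw [LinearMap.comp_apply, h3]
        split_ifs <;> simp
    exact LinearMap.congr_fun this v
  · intro v
    have : D * z - z * D = LinearMap.id - (B.coord none).smulRight (B none) := by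
      refine B.ext fun o => ?_
      rcases o with _ | ⟨i, j⟩
      · simp [h2, hD0]
      · simp only [LinearMap.sub_apply, Module.End.mul_apply, LinearMap.id_apply,
          LinearMap.smulRight_apply, hc, zero_smul, sub_zero]
        rw [h3, hD]
        have hj := j.2
        by_cases hj0 : j.1 = 0
        · have hlen : j.1 + 1 < len i := by
            by_contra hcon
            have : len i = 1 := by omega
            have := h1 i
            rw [‹len i = 1›] at this
            exact hp.out.one_lt.ne' (Nat.dvd_one.1 this)
          rw [dif_pos hlen, dif_pos hj0, hD, map_zero, sub_zero, dif_neg (by simp)]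
          simp [hj0]
          congr 3
          exact Fin.ext hj0.symm
        · rw [dif_neg hj0, map_smul, h3]
          have e1 : j.1 - 1 + 1 < len i := by omega
          rw [dif_pos e1]
          have e2 : (⟨j.1 - 1 + 1, e1⟩ : Fin (len i)) = j := Fin.ext (by simp; omega)
          rw [e2]
          by_cases hlen : j.1 + 1 < len i
          · rw [dif_pos hlen, hD, dif_neg (by simp)]
            have e3 : (⟨j.1 + 1 - 1, by omega⟩ : Fin (len i)) = j := Fin.ext (by simp)
            simp only [e3]
            rw [← sub_smul]
            simp
          · rw [dif_neg hlen, map_zero, zero_sub, ← neg_smul]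
            have e3 : len i = j.1 + 1 := by omega
            have e4 : ((j.1 + 1 : ℕ) : k) = 0 := by
              rw [CharP.cast_eq_zero_iff k p, ← e3]; exact h1 i
            push_cast at e4
            have e5 : -((j.1 : ℕ) : k) = 1 := by linear_combination -e4
            rw [e5, one_smul]
    have h4 := LinearMap.congr_fun this v
    simpa using h4

end Pool.Agent.Benson271
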