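import Pool.Agent.Benson271.Rep

/-! Isomorphisms of tensor powers, primitive elements. -/

namespace Pool.Agent.Benson271

open TensorProduct

universe u

section abstract

variable {k : Type u} [Field k]
variable {A B C D A' B' : Type u} [AddCommGroup A] [Module k A] [AddCommGroup B] [Module k B]
  [AddCommGroup C] [Module k C] [AddCommGroup D] [Module k D]
  [AddCommGroup A'] [Module k A'] [AddCommGroup B'] [Module k B']

theorem congr_dsumEnd (f : A ≃ₗ[k] A') (g : B ≃ₗ[k] B') (a : Module.End k A) (a' : Module.End k A')
    (b : Module.End k B) (b' : Module.End k B') (hf : ∀ v, f (a v) = a' (f v))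
    (hg : ∀ v, g (b v) = b' (g v)) (v : A ⊗[k] B) :
    TensorProduct.congr f g (dsumEnd a b v) = dsumEnd a' b' (TensorProduct.congr f g v) := by
  induction v using TensorProduct.induction_on with
  | zero => simp
  | tmul a b => simp [hf, hg]
  | add x y hx hy => rw [map_add, map_add, hx, hy, map_add, map_add]

theorem assoc_dsumEnd (a : Module.End k A) (b : Module.End k B) (c : Module.End k C)
    (v : (A ⊗[k] B) ⊗[k] C) :
    TensorProduct.assoc k A B C (dsumEnd (dsumEnd a b) c v)
      = dsumEnd a (dsumEnd b c) (TensorProduct.assoc k A B C v) := by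
  induction v using TensorProduct.induction_on with
  | zero => simp
  | tmul v w =>
    induction v using TensorProduct.induction_on with
    | zero => simp
    | tmul x y => simp [TensorProduct.add_tmul, TensorProduct.tmul_add, add_assoc]
    | add x y hx hy => rw [TensorProduct.add_tmul, map_add, map_add, hx, hy, map_add, map_add]
  | add x y hx hy => rw [map_add, map_add, hx, hy, map_add, map_add]

theorem lid_dsumEnd (a : Module.End k A) (v : k ⊗[k] A) :
    TensorProduct.lid k A (dsumEnd 0 a v) = a (TensorProduct.lid k A v) := by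
  induction v using TensorProduct.induction_on with
  | zero => simp
  | tmul v w => simp
  | add x y hx hy => rw [map_add, map_add, hx, hy, map_add, map_add]

theorem ttt_dsumEnd (a : Module.End k A) (b : Module.End k B) (c : Module.End k C)
    (d : Module.End k D) (v : (A ⊗[k] B) ⊗[k] (C ⊗[k] D)) :
    TensorProduct.tensorTensorTensorComm k A B C D (dsumEnd (dsumEnd a b) (dsumEnd c d) v)
      = dsumEnd (dsumEnd a c) (dsumEnd b d) (TensorProduct.tensorTensorTensorComm k A B C D v) := by
  induction v using TensorProduct.induction_on with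
  | zero => simp
  | tmul v w =>
    induction v using TensorProduct.induction_on with
    | zero => simp
    | tmul x y =>
      induction w using TensorProduct.induction_on with
      | zero => simp
      | tmul z t =>
        simp only [dsumEnd_tmul, TensorProduct.add_tmul, TensorProduct.tmul_add,
            map_add, TensorProduct.tensorTensorTensorComm_tmul]
        abel
      | add x y hx hy => rw [TensorProduct.tmul_add, map_add, map_add, hx, hy, map_add, map_add]
    | add x y hx hy => rw [TensorProduct.add_tmul, map_add, map_add, hx, hy, map_add, map_add]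
  | add x y hx hy => rw [map_add, map_add, hx, hy, map_add, map_add]

theorem dual_dsumEnd [FiniteDimensional k A] [FiniteDimensional k B]
    (a : Module.End k A) (b : Module.End k B) (v : Module.Dual k A ⊗[k] Module.Dual k B) :
    TensorProduct.dualDistribEquiv k A B (dsumEnd (-(Module.Dual.transpose (R := k) a))
      (-(Module.Dual.transpose (R := k) b)) v)
      = (-(Module.Dual.transpose (R := k) (dsumEnd a b)) : Module.End k (Module.Dual k (A ⊗[k] B)))
        (TensorProduct.dualDistribEquiv k A B v) := by
  have key : ∀ w, TensorProduct.dualDistribEquiv k A B w = TensorProduct.dualDistrib k A B w :=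
    fun w => rfl
  induction v using TensorProduct.induction_on with
  | zero => simp
  | tmul f g =>
    refine TensorProduct.ext' fun v w => ?_
    have h1 : ((-(Module.Dual.transpose (R := k) a)) f : Module.Dual k A) v * g w
        + f v * ((-(Module.Dual.transpose (R := k) b)) g : Module.Dual k B) w
        = -(f (a v) * g w + f v * g (b w)) := by
      simp only [LinearMap.neg_apply, Module.Dual.transpose_apply, LinearMap.comp_apply]
      ring
    have h2 : (TensorProduct.dualDistrib k A B (f ⊗ₜ g)) (dsumEnd a b (v ⊗ₜ w))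
        = f (a v) * g w + f v * g (b w) := by
      rw [dsumEnd_tmul, map_add, TensorProduct.dualDistrib_apply, TensorProduct.dualDistrib_apply]
    rw [key, key, dsumEnd_tmul, map_add]
    refine Eq.trans ?_ (h1.trans ?_)
    · rfl
    · rw [← h2]; rfl
  | add x y hx hy => rw [map_add, map_add, hx, hy, map_add, map_add]

theorem dsumEnd_smul (c : k) (f : Module.End k A) (g : Module.End k B) :
    c • dsumEnd f g = dsumEnd (c • f) (c • g) := by
  refine TensorProduct.ext' fun a b => ?_
  simp [TensorProduct.smul_tmul']

theorem dsumEnd_add (f f' : Module.End k A) (g g' : Module.End k B) :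
    dsumEnd f g + dsumEnd f' g' = dsumEnd (f + f') (g + g') := by
  refine TensorProduct.ext' fun a b => ?_
  simp only [LinearMap.add_apply, dsumEnd_tmul, TensorProduct.add_tmul, TensorProduct.tmul_add]
  abel

theorem dsumEnd_sum (f : ℕ → Module.End k A) (g : ℕ → Module.End k B) (t : Finset ℕ) :
    ∑ i ∈ t, dsumEnd (f i) (g i) = dsumEnd (∑ i ∈ t, f i) (∑ i ∈ t, g i) := by
  induction t using Finset.induction_on with
  | empty => simp [ARep.dsumEnd_zero]
  | insert i t hi ih => rw [Finset.sum_insert hi, Finset.sum_insert hi, Finset.sum_insert hi, ih,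
      dsumEnd_add]

theorem prim_dsumEnd {p : ℕ} [Fact p.Prime] [CharP k p] (r s : ℕ) (a b : ℕ → k)
    (x y : Module.End k A) (x' y' : Module.End k B) :
    ∑ i ∈ Finset.range r, a i • (dsumEnd x x') ^ (p ^ i)
      + ∑ j ∈ Finset.range s, b j • (dsumEnd y y') ^ (p ^ j)
    = dsumEnd (∑ i ∈ Finset.range r, a i • x ^ (p ^ i) + ∑ j ∈ Finset.range s, b j • y ^ (p ^ j))
      (∑ i ∈ Finset.range r, a i • x' ^ (p ^ i) + ∑ j ∈ Finset.range s, b j • y' ^ (p ^ j)) := by
  simp only [ARep.dsumEnd_pow_pow, dsumEnd_smul, dsumEnd_sum, dsumEnd_add]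

theorem prim_zero {p : ℕ} [Fact p.Prime] (r s : ℕ) (a b : ℕ → k) :
    ∑ i ∈ Finset.range r, a i • (0 : Module.End k A) ^ (p ^ i)
      + ∑ j ∈ Finset.range s, b j • (0 : Module.End k A) ^ (p ^ j) = 0 := by
  have hp : p ≠ 0 := (Fact.out : p.Prime).ne_zero
  simp [hp]

theorem transpose_pow (f : Module.End k A) (m : ℕ) :
    (Module.Dual.transpose (R := k) f : Module.End k (Module.Dual k A)) ^ m
      = Module.Dual.transpose (R := k) (f ^ m) := by
  induction m with
  | zero => ext; simp [Module.Dual.transpose_apply]
  | succ m ih =>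
    rw [pow_succ, ih]
    ext φ v
    simp only [Module.End.mul_apply, Module.Dual.transpose_apply, LinearMap.comp_apply]
    rw [pow_succ', Module.End.mul_apply]

theorem neg_pow_p {R : Type u} [Ring R] [Algebra k R] {p : ℕ} [hp : Fact p.Prime] [CharP k p]
    (f : R) (i : ℕ) : (-f) ^ (p ^ i) = - f ^ (p ^ i) := by
  have h : ((-1 : k)) ^ (p ^ i) = -1 := neg_one_pow_char_pow k p i
  have h' : ((-1 : R)) ^ (p ^ i) = -1 := by
    rw [← map_one (algebraMap k R), ← map_neg, ← map_pow, h]
  rw [neg_pow, h', neg_one_mul]

theorem prim_transpose {p : ℕ} [Fact p.Prime] [CharP k p] (r s : ℕ) (a b : ℕ → k)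
    (x y : Module.End k A) :
    ∑ i ∈ Finset.range r, a i • (-(Module.Dual.transpose (R := k) x) :
        Module.End k (Module.Dual k A)) ^ (p ^ i)
      + ∑ j ∈ Finset.range s, b j • (-(Module.Dual.transpose (R := k) y) :
        Module.End k (Module.Dual k A)) ^ (p ^ j)
    = -(Module.Dual.transpose (R := k) (∑ i ∈ Finset.range r, a i • x ^ (p ^ i)
      + ∑ j ∈ Finset.range s, b j • y ^ (p ^ j)) : Module.End k (Module.Dual k A)) := by
  have h : ∀ (z : Module.End k A) (i : ℕ) (φ : Module.Dual k A) (v : A),
      (((-(Module.Dual.transpose (R := k) z) : Module.End k (Module.Dual k A)) ^ (p ^ i)) φ) v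
        = - φ ((z ^ (p ^ i)) v) := by
    intro z i φ v
    have h1 : (-(Module.Dual.transpose (R := k) z) : Module.End k (Module.Dual k A)) ^ (p ^ i)
        = -(Module.Dual.transpose (R := k) (z ^ (p ^ i)) : Module.End k (Module.Dual k A)) := by
      rw [← transpose_pow]
      exact neg_pow_p (k := k) (R := Module.End k (Module.Dual k A)) _ i
    rw [h1]
    rfl
  refine LinearMap.ext fun φ => LinearMap.ext fun v => ?_
  simp only [LinearMap.add_apply, LinearMap.sum_apply, LinearMap.smul_apply, h]
  have : ((-(Module.Dual.transpose (R := k) (∑ i ∈ Finset.range r, a i • x ^ (p ^ i)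
      + ∑ j ∈ Finset.range s, b j • y ^ (p ^ j)) : Module.End k (Module.Dual k A))) φ) v
      = - φ ((∑ i ∈ Finset.range r, a i • x ^ (p ^ i)
      + ∑ j ∈ Finset.range s, b j • y ^ (p ^ j)) v) := rfl
  rw [this]
  simp only [LinearMap.add_apply, LinearMap.sum_apply, LinearMap.smul_apply, map_add, map_sum,
    map_smul, smul_eq_mul, mul_neg, Finset.sum_neg_distrib, neg_add]

end abstract

end Pool.Agent.Benson271
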