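import Pool.Agent.Benson271.Iso

/-! Isomorphisms of tensor powers, primitive elements. -/

namespace Pool.Agent.Benson271

open TensorProduct

universe u

namespace ARep

variable {p r s : ℕ} {k : Type u} [Field k]

theorem trivDual_abs (v : k) :
    (LinearMap.ringLmapEquivSelf k k k).symm ((0 : Module.End k k) v)
      = (-(Module.Dual.transpose (R := k) (0 : Module.End k k)) : Module.End k (Module.Dual k k))
        ((LinearMap.ringLmapEquivSelf k k k).symm v) := by
  simp

namespace Iso

/-- identity -/
def refl (A : ARep p r s k) : Iso A A := ⟨LinearEquiv.refl k A.V, fun _ => rfl, fun _ => rfl⟩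

/-- inverse -/
def symm {A B : ARep p r s k} (f : Iso A B) : Iso B A :=
  ⟨f.e.symm, fun v => by apply f.e.injective; rw [f.hx]; simp,
    fun v => by apply f.e.injective; rw [f.hy]; simp⟩

/-- composition -/
def trans {A B C : ARep p r s k} (f : Iso A B) (g : Iso B C) : Iso A C :=
  ⟨f.e.trans g.e, fun v => by simp [f.hx, g.hx], fun v => by simp [f.hy, g.hy]⟩

section prime
variable [Fact p.Prime] [CharP k p]

/-- tensor product of isomorphisms -/
def tensor {A B C D : ARep p r s k} (f : Iso A B) (g : Iso C D) :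
    Iso (tensor A C) (tensor B D) :=
  ⟨TensorProduct.congr f.e g.e, congr_dsumEnd f.e g.e A.x B.x C.x D.x f.hx g.hx,
    congr_dsumEnd f.e g.e A.y B.y C.y D.y f.hy g.hy⟩

/-- associativity -/
def assoc (A B C : ARep p r s k) :
    Iso (ARep.tensor (ARep.tensor A B) C) (ARep.tensor A (ARep.tensor B C)) :=
  ⟨TensorProduct.assoc k A.V B.V C.V, assoc_dsumEnd A.x B.x C.x, assoc_dsumEnd A.y B.y C.y⟩

/-- left unit -/
def lid (A : ARep p r s k) : Iso (ARep.tensor triv A) A :=
  ⟨TensorProduct.lid k A.V, lid_dsumEnd A.x, lid_dsumEnd A.y⟩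

/-- the middle four interchange -/
def ttt (A B C D : ARep p r s k) :
    Iso (ARep.tensor (ARep.tensor A B) (ARep.tensor C D))
      (ARep.tensor (ARep.tensor A C) (ARep.tensor B D)) :=
  ⟨TensorProduct.tensorTensorTensorComm k A.V B.V C.V D.V, ttt_dsumEnd A.x B.x C.x D.x,
    ttt_dsumEnd A.y B.y C.y D.y⟩

/-- `triv ≅ triv*` -/
def trivDual : Iso (triv : ARep p r s k) (dual triv) :=
  ⟨(LinearMap.ringLmapEquivSelf k k k).symm, fun v => trivDual_abs (k := k) v,
    fun v => trivDual_abs (k := k) v⟩

/-- `A* ⊗ B* ≅ (A ⊗ B)*` -/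
noncomputable def dualTensor (A B : ARep p r s k) :
    Iso (ARep.tensor (dual A) (dual B)) (dual (ARep.tensor A B)) :=
  ⟨TensorProduct.dualDistribEquiv k A.V B.V, dual_dsumEnd A.x B.x, dual_dsumEnd A.y B.y⟩

end prime

end Iso

theorem isom_refl (A : ARep p r s k) : Isom A A := (Iso.refl A).isom

theorem isom_of_eq {A B : ARep p r s k} (h : A = B) : Isom A B := h ▸ isom_refl A

theorem Isom.symm {A B : ARep p r s k} (h : Isom A B) : Isom B A :=
  h.nonempty.elim fun f => f.symm.isom

theorem Isom.trans {A B C : ARep p r s k} (h : Isom A B) (h' : Isom B C) : Isom A C :=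
  h.nonempty.elim fun f => h'.nonempty.elim fun g => (f.trans g).isom

section

variable [Fact p.Prime] [CharP k p]

theorem Isom.tensor {A B C D : ARep p r s k} (h : Isom A B) (h' : Isom C D) :
    Isom (ARep.tensor A C) (ARep.tensor B D) :=
  h.nonempty.elim fun f => h'.nonempty.elim fun g => (f.tensor g).isom

theorem isom_powAdd (A : ARep p r s k) (m n : ℕ) :
    Isom (A.pow (m + n)) (ARep.tensor (A.pow m) (A.pow n)) := by
  induction m with
  | zero =>
    rw [Nat.zero_add]
    exact Isom.symm (Iso.lid (A.pow n)).isom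
  | succ m ih =>
    rw [show m + 1 + n = (m + n) + 1 by omega]
    exact ((isom_refl A).tensor ih).trans (Isom.symm (Iso.assoc A (A.pow m) (A.pow n)).isom)

theorem isom_powMul (A : ARep p r s k) (m n : ℕ) : Isom (A.pow (m * n)) ((A.pow m).pow n) := by
  induction n with
  | zero => exact isom_refl _
  | succ n ih =>
    rw [Nat.mul_succ, Nat.add_comm]
    exact (isom_powAdd A m (m * n)).trans ((isom_refl _).tensor ih)

theorem Isom.pow {A B : ARep p r s k} (h : Isom A B) (n : ℕ) : Isom (A.pow n) (B.pow n) := by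
  induction n with
  | zero => exact isom_refl _
  | succ n ih => exact h.tensor ih

theorem isom_powTensor (A B : ARep p r s k) (n : ℕ) :
    Isom ((ARep.tensor A B).pow n) (ARep.tensor (A.pow n) (B.pow n)) := by
  induction n with
  | zero => exact Isom.symm (Iso.lid _).isom
  | succ n ih =>
    exact ((isom_refl _).tensor ih).trans (Iso.ttt A B (A.pow n) (B.pow n)).isom

theorem isom_powDual (A : ARep p r s k) (n : ℕ) :
    Isom ((dual A).pow n) (dual (A.pow n)) := by
  induction n with
  | zero => exact Iso.trivDual.isom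
  | succ n ih =>
    exact ((isom_refl _).tensor ih).trans (Iso.dualTensor A (A.pow n)).isom

end

/-- `a_0 f + a_1 f^p + a_2 f^(p^2) + ... + a_(r-1) f^(p^(r-1))` -/
def frobSum (p r : ℕ) {A : Type u} [AddCommGroup A] [Module k A] (a : ℕ → k)
    (f : Module.End k A) : Module.End k A := ∑ i ∈ Finset.range r, a i • f ^ (p ^ i)

/-- The operator by which the primitive element
`a_0 x + a_1 x^p + a_2 x^(p^2) + ... + b_0 y + b_1 y^p + ...` of `k[x,y]/(x^(p^r), y^(p^s))` acts. -/
def prim (a b : ℕ → k) (A : ARep p r s k) : Module.End k A.V :=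
  frobSum p r a A.x + frobSum p s b A.y

theorem Iso.hxpow {A B : ARep p r s k} (f : Iso A B) (n : ℕ) (v : A.V) :
    f.e ((A.x ^ n) v) = (B.x ^ n) (f.e v) := by
  induction n generalizing v with
  | zero => simp
  | succ n ih => rw [pow_succ, Module.End.mul_apply, ih, f.hx, pow_succ, Module.End.mul_apply]

theorem Iso.hypow {A B : ARep p r s k} (f : Iso A B) (n : ℕ) (v : A.V) :
    f.e ((A.y ^ n) v) = (B.y ^ n) (f.e v) := by
  induction n generalizing v with
  | zero => simp
  | succ n ih => rw [pow_succ, Module.End.mul_apply, ih, f.hy, pow_succ, Module.End.mul_apply]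

theorem Iso.hprim {A B : ARep p r s k} (f : Iso A B) (a b : ℕ → k) (v : A.V) :
    f.e (prim a b A v) = prim a b B (f.e v) := by
  simp [prim, frobSum, LinearMap.sum_apply, f.hxpow, f.hypow]

theorem prim_tensor [Fact p.Prime] [CharP k p] (a b : ℕ → k) (A B : ARep p r s k) :
    prim a b (tensor A B) = dsumEnd (prim a b A) (prim a b B) :=
  prim_dsumEnd r s a b A.x A.y B.x B.y

theorem prim_triv [Fact p.Prime] (a b : ℕ → k) : prim a b (triv : ARep p r s k) = 0 :=
  prim_zero (A := k) r s a b

theorem prim_dual [Fact p.Prime] [CharP k p] (a b : ℕ → k) (A : ARep p r s k) :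
    prim a b (dual A) = (-(Module.Dual.transpose (R := k) (prim a b A)) :
      Module.End k (Module.Dual k A.V)) :=
  prim_transpose r s a b A.x A.y

/-- `A` is `z`-endotrivial (operator form), for the primitive element `z` given by `a`, `b`. -/
def EndoTriv (a b : ℕ → k) (A : ARep p r s k) : Prop := ET (prim a b A)

theorem EndoTriv.tensor [Fact p.Prime] [CharP k p] {a b : ℕ → k} {A B : ARep p r s k}
    (h : EndoTriv a b A) (h' : EndoTriv a b B) : EndoTriv a b (ARep.tensor A B) := by
  have := ET.tensor h h'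
  rw [← prim_tensor] at this
  exact this

theorem EndoTriv.triv [Fact p.Prime] (a b : ℕ → k) : EndoTriv a b (triv : ARep p r s k) := by
  unfold EndoTriv
  rw [prim_triv]
  exact ET.triv

theorem EndoTriv.pow [Fact p.Prime] [CharP k p] {a b : ℕ → k} {A : ARep p r s k}
    (h : EndoTriv a b A) (n : ℕ) : EndoTriv a b (A.pow n) := by
  induction n with
  | zero => exact EndoTriv.triv a b
  | succ n ih => exact h.tensor ih

theorem EndoTriv.dual [Fact p.Prime] [CharP k p] {a b : ℕ → k} {A : ARep p r s k}
    (h : EndoTriv a b A) : EndoTriv a b (dual A) := by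
  have := ET.dual h
  rw [← prim_dual] at this
  exact this

theorem EndoTriv.isom {a b : ℕ → k} {A B : ARep p r s k} (h : EndoTriv a b A) (h' : Isom A B) :
    EndoTriv a b B := h'.nonempty.elim fun f => ET.equiv f.e (f.hprim a b) h

end ARep

end Pool.Agent.Benson271
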