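import Pool.Agent.Benson271.Isom

/-! Fixed vectors, invariant functionals, the order of an endotrivial class. -/

namespace Pool.Agent.Benson271

open TensorProduct

universe u

section abs

variable {k : Type u} [Field k]
variable {A B : Type u} [AddCommGroup A] [Module k A] [AddCommGroup B] [Module k B]

theorem ETdata.fixed_iff {z : Module.End k A} {e : A} {l : A →ₗ[k] k} {D : Module.End k A}
    (h : ETdata z e l D) {w : A} (hw : z w = 0) : (¬ ∃ u, z u = w) ↔ l w ≠ 0 := by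
  constructor
  · intro h1 h2
    apply h1
    refine ⟨-(D w), ?_⟩
    have := h.ker hw
    rw [h2, zero_smul, zero_add] at this
    exact this.symm
  · rintro h1 ⟨u, rfl⟩
    exact h1 (h.lz u)

theorem ETdata.cofixed_iff {z : Module.End k A} {e : A} {l : A →ₗ[k] k} {D : Module.End k A}
    (h : ETdata z e l D) {f : A →ₗ[k] k} (hf : ∀ v, f (z v) = 0) :
    (∃ w, z w = 0 ∧ f w ≠ 0) ↔ f e ≠ 0 := by
  constructor
  · rintro ⟨w, hw, h1⟩ h2
    rw [h.inv hf hw, h2, mul_zero] at h1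
    exact h1 rfl
  · intro h1
    exact ⟨e, h.ze, h1⟩

/-- contraction of the second factor -/
def contr (A : Type u) [AddCommGroup A] [Module k A] {B : Type u} [AddCommGroup B] [Module k B]
    (f : B →ₗ[k] k) : A ⊗[k] B →ₗ[k] A :=
  (TensorProduct.rid k A).toLinearMap ∘ₗ TensorProduct.map LinearMap.id f

@[simp] theorem contr_tmul (f : B →ₗ[k] k) (v : A) (w : B) : contr A f (v ⊗ₜ w) = f w • v := by
  simp [contr]

theorem contr_dsumEnd (f : B →ₗ[k] k) (a : Module.End k A) (b : Module.End k B)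
    (hf : ∀ v, f (b v) = 0) (t : A ⊗[k] B) : contr A f (dsumEnd a b t) = a (contr A f t) := by
  induction t using TensorProduct.induction_on with
  | zero => simp
  | tmul v w => simp [hf]
  | add x y hx hy => rw [map_add, map_add, hx, hy, map_add, map_add]

theorem apply_contr (l : A →ₗ[k] k) (f : B →ₗ[k] k) (t : A ⊗[k] B) :
    l (contr A f t) = (LinearMap.mul' k k ∘ₗ TensorProduct.map l f) t := by
  induction t using TensorProduct.induction_on with
  | zero => simp
  | tmul v w => simp [mul_comm]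
  | add x y hx hy => rw [map_add, map_add, hx, hy, map_add]

theorem mul_map_dsumEnd (l : A →ₗ[k] k) (f : B →ₗ[k] k) (a : Module.End k A) (b : Module.End k B)
    (hl : ∀ v, l (a v) = 0) (hf : ∀ v, f (b v) = 0) (t : A ⊗[k] B) :
    (LinearMap.mul' k k ∘ₗ TensorProduct.map l f) (dsumEnd a b t) = 0 := by
  induction t using TensorProduct.induction_on with
  | zero => simp
  | tmul v w => simp [hf, hl]
  | add x y hx hy => rw [map_add, map_add, hx, hy, add_zero]

theorem dsumEnd_fixed (a : Module.End k A) (b : Module.End k B) {v : A} {w : B} (hv : a v = 0)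
    (hw : b w = 0) : dsumEnd a b (v ⊗ₜ w) = 0 := by
  simp [hv, hw]

theorem fixed_tmul (a : Module.End k A) (b : Module.End k B) (f : A ⊗[k] B →ₗ[k] k)
    (hf : ∀ t, f (dsumEnd a b t) = 0) {w : B} (hw : b w = 0) (v : A) :
    (f ∘ₗ (TensorProduct.mk k A B).flip w) (a v) = 0 := by
  have := hf (v ⊗ₜ w)
  simpa [hw] using this

end abs

namespace ARep

variable {p r s : ℕ} {k : Type u} [Field k]

/-- `A` has a vector fixed by `x` and `y` (that is, killed by both) outside the image of `z`. -/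
def HasFixed (a b : ℕ → k) (A : ARep p r s k) : Prop :=
  ∃ w : A.V, A.x w = 0 ∧ A.y w = 0 ∧ ¬ ∃ u, prim a b A u = w

/-- `A` has a linear functional killing the images of `x` and `y` but not the kernel of `z`. -/
def HasCofixed (a b : ℕ → k) (A : ARep p r s k) : Prop :=
  ∃ f : A.V →ₗ[k] k, (∀ v, f (A.x v) = 0) ∧ (∀ v, f (A.y v) = 0) ∧
    ∃ w, prim a b A w = 0 ∧ f w ≠ 0

theorem HasFixed.isom {a b : ℕ → k} {A B : ARep p r s k} (h : HasFixed a b A) (h' : Isom A B) :
    HasFixed a b B := by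
  obtain ⟨f⟩ := h'.nonempty
  obtain ⟨w, h1, h2, h3⟩ := h
  refine ⟨f.e w, by rw [← f.hx, h1, map_zero], by rw [← f.hy, h2, map_zero], ?_⟩
  rintro ⟨u, hu⟩
  apply h3
  refine ⟨f.e.symm u, ?_⟩
  apply f.e.injective
  rw [f.hprim]
  simpa using hu

theorem HasCofixed.isom {a b : ℕ → k} {A B : ARep p r s k} (h : HasCofixed a b A)
    (h' : Isom A B) : HasCofixed a b B := by
  obtain ⟨e⟩ := h'.nonempty
  obtain ⟨f, h1, h2, w, h3, h4⟩ := h
  refine ⟨f ∘ₗ e.e.symm.toLinearMap, ?_, ?_, e.e w, ?_, ?_⟩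
  · intro v
    have := e.symm.hx v
    change e.e.symm (B.x v) = A.x (e.e.symm v) at this
    simp [this, h1]
  · intro v
    have := e.symm.hy v
    change e.e.symm (B.y v) = A.y (e.e.symm v) at this
    simp [this, h2]
  · rw [← e.hprim, h3, map_zero]
  · simpa using h4

section basic

variable [hp : Fact p.Prime]

theorem prim_fixed (a b : ℕ → k) (A : ARep p r s k) {w : A.V} (hx : A.x w = 0) (hy : A.y w = 0) :
    prim a b A w = 0 := by
  have h1 : ∀ (f : Module.End k A.V) (i : ℕ), f w = 0 → (f ^ (p ^ i)) w = 0 := by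
    intro f i hf
    obtain ⟨m, hm⟩ := Nat.exists_eq_succ_of_ne_zero (pow_pos hp.out.pos i).ne'
    rw [hm, Nat.succ_eq_add_one, pow_succ, Module.End.mul_apply, hf, map_zero]
  simp [prim, frobSum, LinearMap.sum_apply, h1 _ _ hx, h1 _ _ hy]

theorem prim_cofixed (a b : ℕ → k) (A : ARep p r s k) {f : A.V →ₗ[k] k}
    (hx : ∀ v, f (A.x v) = 0) (hy : ∀ v, f (A.y v) = 0) (v : A.V) :
    f (prim a b A v) = 0 := by
  have h1 : ∀ (g : Module.End k A.V) (i : ℕ), (∀ v, f (g v) = 0) → f ((g ^ (p ^ i)) v) = 0 := by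
    intro g i hf
    obtain ⟨m, hm⟩ := Nat.exists_eq_succ_of_ne_zero (pow_pos hp.out.pos i).ne'
    rw [hm, Nat.succ_eq_add_one, pow_succ', Module.End.mul_apply, hf]
  simp [prim, frobSum, LinearMap.sum_apply, h1 _ _ hx, h1 _ _ hy]

variable [CharP k p]

theorem HasFixed.tensor {a b : ℕ → k} {A B : ARep p r s k} (hA : EndoTriv a b A)
    (hB : EndoTriv a b B) (h : HasFixed a b A) (h' : HasFixed a b B) :
    HasFixed a b (tensor A B) := by
  obtain ⟨e, l, D, hE⟩ := hA
  obtain ⟨e', l', D', hE'⟩ := hB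
  obtain ⟨w, h1, h2, h3⟩ := h
  obtain ⟨w', h1', h2', h3'⟩ := h'
  rw [hE.fixed_iff (prim_fixed a b A h1 h2)] at h3
  rw [hE'.fixed_iff (prim_fixed a b B h1' h2')] at h3'
  refine ⟨w ⊗ₜ w', dsumEnd_fixed _ _ h1 h1', dsumEnd_fixed _ _ h2 h2', ?_⟩
  have h4 := (hE.tensor hE').fixed_iff (w := w ⊗ₜ w')
    (dsumEnd_fixed _ _ (prim_fixed a b A h1 h2) (prim_fixed a b B h1' h2'))
  rw [prim_tensor]
  refine h4.2 ?_
  simpa using ⟨h3, h3'⟩

theorem HasCofixed.tensor {a b : ℕ → k} {A B : ARep p r s k} (hA : EndoTriv a b A)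
    (hB : EndoTriv a b B) (h : HasCofixed a b A) (h' : HasCofixed a b B) :
    HasCofixed a b (ARep.tensor A B) := by
  obtain ⟨e, l, D, hE⟩ := hA
  obtain ⟨e', l', D', hE'⟩ := hB
  obtain ⟨f, h1, h2, h3⟩ := h
  obtain ⟨f', h1', h2', h3'⟩ := h'
  rw [hE.cofixed_iff (prim_cofixed a b A h1 h2)] at h3
  rw [hE'.cofixed_iff (prim_cofixed a b B h1' h2')] at h3'
  refine ⟨LinearMap.mul' k k ∘ₗ TensorProduct.map f f', mul_map_dsumEnd _ _ _ _ h1 h1',
    mul_map_dsumEnd _ _ _ _ h2 h2', e ⊗ₜ e', ?_, ?_⟩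
  · rw [prim_tensor]
    exact dsumEnd_fixed _ _ hE.ze hE'.ze
  · have h5 : (LinearMap.mul' k k ∘ₗ TensorProduct.map f f') (e ⊗ₜ e') = f e * f' e' := by simp
    exact fun h0 => mul_ne_zero h3 h3' (h5.symm.trans h0)

theorem HasCofixed.of_tensor {a b : ℕ → k} {A B : ARep p r s k} (hA : EndoTriv a b A)
    (hB : EndoTriv a b B) (h : HasCofixed a b (ARep.tensor A B)) (h' : HasFixed a b B) :
    HasCofixed a b A := by
  obtain ⟨e, l, D, hE⟩ := hA
  obtain ⟨e', l', D', hE'⟩ := hB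
  obtain ⟨f, h1, h2, h3⟩ := h
  obtain ⟨w', h1', h2', h3'⟩ := h'
  rw [hE'.fixed_iff (prim_fixed a b B h1' h2')] at h3'
  have hfz := prim_cofixed a b (ARep.tensor A B) h1 h2
  rw [prim_tensor] at h3 hfz
  have h3 := ((hE.tensor hE').cofixed_iff hfz).1 h3
  refine ⟨f ∘ₗ (TensorProduct.mk k A.V B.V).flip w', fixed_tmul _ _ f h1 h1',
    fixed_tmul _ _ f h2 h2', e, hE.ze, ?_⟩
  have h5 := (hE.tensor hE').inv hfz (g := e ⊗ₜ w')
    (dsumEnd_fixed _ _ hE.ze (prim_fixed a b B h1' h2'))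
  have h6 : (LinearMap.mul' k k ∘ₗ TensorProduct.map l l') (e ⊗ₜ w') ≠ 0 := by
    simpa [hE.le] using h3'
  exact fun h0 => mul_ne_zero h6 h3 (h5.symm.trans h0)

theorem HasFixed.of_tensor {a b : ℕ → k} {A B : ARep p r s k} (hA : EndoTriv a b A)
    (hB : EndoTriv a b B) (h : HasFixed a b (ARep.tensor A B)) (h' : HasCofixed a b B) :
    HasFixed a b A := by
  obtain ⟨e, l, D, hE⟩ := hA
  obtain ⟨e', l', D', hE'⟩ := hB
  obtain ⟨w, h1, h2, h3⟩ := h
  obtain ⟨f, h1', h2', h3'⟩ := h'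
  have hfz := prim_cofixed a b B h1' h2'
  rw [hE'.cofixed_iff hfz] at h3'
  have hw := prim_fixed a b (ARep.tensor A B) h1 h2
  rw [prim_tensor] at h3 hw
  have h3 := ((hE.tensor hE').fixed_iff hw).1 h3
  have hx : A.x (contr A.V f w) = 0 := by
    rw [← contr_dsumEnd f A.x B.x h1' w]
    exact (congrArg (contr A.V f) h1).trans (map_zero _)
  have hy : A.y (contr A.V f w) = 0 := by
    rw [← contr_dsumEnd f A.y B.y h2' w]
    exact (congrArg (contr A.V f) h2).trans (map_zero _)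
  refine ⟨contr A.V f w, hx, hy, ?_⟩
  rw [hE.fixed_iff (prim_fixed a b A hx hy)]
  have h6 : (LinearMap.mul' k k ∘ₗ TensorProduct.map l f) (e ⊗ₜ e') ≠ 0 := by
    simpa [hE.le] using h3'
  have h5 := (hE.tensor hE').inv (mul_map_dsumEnd l f _ _ hE.lz hfz) hw
  exact fun h0 => mul_ne_zero h3 h6 (h5.symm.trans ((apply_contr l f w).symm.trans h0))

omit [CharP k p] in
theorem HasFixed.triv (a b : ℕ → k) : HasFixed a b (triv : ARep p r s k) := by
  refine ⟨(1 : k), rfl, rfl, ?_⟩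
  rw [prim_triv]
  rintro ⟨u, hu⟩
  exact zero_ne_one (α := k) hu

omit [CharP k p] in
theorem HasCofixed.triv (a b : ℕ → k) : HasCofixed a b (triv : ARep p r s k) := by
  refine ⟨(LinearMap.id : k →ₗ[k] k), fun _ => rfl, fun _ => rfl, (1 : k), ?_, one_ne_zero⟩
  rw [prim_triv]
  rfl

theorem HasFixed.add {a b : ℕ → k} {A : ARep p r s k} (hA : EndoTriv a b A) {m n : ℕ}
    (h : HasFixed a b (A.pow m)) (h' : HasFixed a b (A.pow n)) : HasFixed a b (A.pow (m + n)) :=
  (HasFixed.tensor (hA.pow m) (hA.pow n) h h').isom (isom_powAdd A m n).symm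

theorem HasCofixed.add {a b : ℕ → k} {A : ARep p r s k} (hA : EndoTriv a b A) {m n : ℕ}
    (h : HasCofixed a b (A.pow m)) (h' : HasCofixed a b (A.pow n)) :
    HasCofixed a b (A.pow (m + n)) :=
  (HasCofixed.tensor (hA.pow m) (hA.pow n) h h').isom (isom_powAdd A m n).symm

theorem HasFixed.mul {a b : ℕ → k} {A : ARep p r s k} (hA : EndoTriv a b A) {m : ℕ}
    (h : HasFixed a b (A.pow m)) (n : ℕ) : HasFixed a b (A.pow (m * n)) := by
  induction n with
  | zero => exact HasFixed.triv a b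
  | succ n ih => rw [Nat.mul_succ]; exact HasFixed.add hA ih h

theorem HasCofixed.mul {a b : ℕ → k} {A : ARep p r s k} (hA : EndoTriv a b A) {m : ℕ}
    (h : HasCofixed a b (A.pow m)) (n : ℕ) : HasCofixed a b (A.pow (m * n)) := by
  induction n with
  | zero => exact HasCofixed.triv a b
  | succ n ih => rw [Nat.mul_succ]; exact HasCofixed.add hA ih h

/-- The core argument. -/
theorem both {a b : ℕ → k} {A : ARep p r s k} (hA : EndoTriv a b A) {m n : ℕ} (hm : 0 < m)
    (h1 : HasFixed a b (A.pow m)) (h2 : HasCofixed a b (A.pow m))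
    (h : HasFixed a b (A.pow n) ∨ HasCofixed a b (A.pow n)) :
    HasFixed a b (A.pow n) ∧ HasCofixed a b (A.pow n) := by
  obtain ⟨m', rfl⟩ := Nat.exists_eq_succ_of_ne_zero hm.ne'
  have e1 : (m' + 1) * n = n + n * m' := by ring
  rcases h with h | h
  · refine ⟨h, ?_⟩
    have h3 := HasCofixed.mul hA h2 n
    rw [Nat.succ_eq_add_one, e1] at h3
    exact HasCofixed.of_tensor (hA.pow n) (hA.pow (n * m')) (h3.isom (isom_powAdd A n (n * m')))
      (HasFixed.mul hA h m')
  · refine ⟨?_, h⟩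
    have h3 := HasFixed.mul hA h1 n
    rw [Nat.succ_eq_add_one, e1] at h3
    exact HasFixed.of_tensor (hA.pow n) (hA.pow (n * m')) (h3.isom (isom_powAdd A n (n * m')))
      (HasCofixed.mul hA h m')

end basic

end ARep

end Pool.Agent.Benson271
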