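import Pool.Agent.Benson271.Summand

/-! The order of an endotrivial class. -/

namespace Pool.Agent.Benson271

open TensorProduct

universe u

section abs

variable {k : Type u} [Field k] {A B : Type u} [AddCommGroup A] [Module k A] [AddCommGroup B]
  [Module k B]

theorem map_id_comm (z : Module.End k A) (z' : Module.End k B) (φ : Module.End k A)
    (h : ∀ v, φ (z v) = z (φ v)) (t : A ⊗[k] B) :
    (TensorProduct.map φ LinearMap.id : Module.End k (A ⊗[k] B)) (dsumEnd z z' t)
      = dsumEnd z z' (TensorProduct.map φ LinearMap.id t) := by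
  induction t using TensorProduct.induction_on with
  | zero => simp
  | tmul v w => simp [h]
  | add x y hx hy => rw [map_add, map_add, hx, hy, map_add, map_add]

theorem charProp_abs [FiniteDimensional k A] [FiniteDimensional k B] (z : Module.End k A)
    (z' : Module.End k B) (h : ET (dsumEnd z z')) :
    ∃ c : k, c ≠ 0 ∧ (Module.finrank k A : k) ≠ 0 ∧ ∀ φ ψ : Module.End k A,
      (∀ v, φ (z v) = z (φ v)) → (∀ v, ψ (z v) = z (ψ v)) →
      LinearMap.trace k A (φ * ψ) = c * (LinearMap.trace k A φ * LinearMap.trace k A ψ) := by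
  have h1 := h.trace_one
  have h2 : ∀ φ : Module.End k A, LinearMap.trace k (A ⊗[k] B) (TensorProduct.map φ LinearMap.id)
      = LinearMap.trace k A φ * (Module.finrank k B : k) := by
    intro φ
    rw [LinearMap.trace_tensorProduct', LinearMap.trace_id]
  have h3 : (Module.finrank k A : k) * (Module.finrank k B : k) = 1 := by
    rw [← h1, ← LinearMap.trace_id k A, ← h2]
    congr 1
    exact TensorProduct.map_id
  have hB : (Module.finrank k B : k) ≠ 0 := right_ne_zero_of_mul_eq_one h3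
  refine ⟨(Module.finrank k B : k), hB, left_ne_zero_of_mul_eq_one h3, ?_⟩
  intro φ ψ hφ hψ
  have h4 := h.trace_mul (TensorProduct.map φ LinearMap.id) (TensorProduct.map ψ LinearMap.id)
    (map_id_comm z z' φ hφ) (map_id_comm z z' ψ hψ)
  have h5 : (TensorProduct.map φ LinearMap.id : Module.End k (A ⊗[k] B))
      * TensorProduct.map ψ LinearMap.id = TensorProduct.map (φ * ψ) LinearMap.id := by
    refine TensorProduct.ext' fun v w => ?_
    simp
  rw [h5, h2, h2, h2] at h4
  apply mul_right_cancel₀ hB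
  rw [h4]; ring

/-- `A ⊗ A* ≃ End A` -/
noncomputable def endEquiv (A : Type u) [AddCommGroup A] [Module k A] [FiniteDimensional k A] :
    A ⊗[k] Module.Dual k A ≃ₗ[k] Module.End k A :=
  (TensorProduct.comm k A (Module.Dual k A)).trans (dualTensorHomEquiv k A A)

theorem endEquiv_tmul [FiniteDimensional k A] (v : A) (f : Module.Dual k A) (w : A) :
    endEquiv A (v ⊗ₜ[k] f) w = f w • v := by
  simp [endEquiv]

theorem endEquiv_dsumEnd [FiniteDimensional k A] (X : Module.End k A)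
    (t : A ⊗[k] Module.Dual k A) :
    endEquiv A (dsumEnd X (-(Module.Dual.transpose (R := k) X)) t)
      = X * endEquiv A t - endEquiv A t * X := by
  induction t using TensorProduct.induction_on with
  | zero => simp
  | tmul v f =>
    rw [dsumEnd_tmul, map_add]
    ext w
    have h1 : endEquiv A (v ⊗ₜ[k] ((-(Module.Dual.transpose (R := k) X)) f : Module.Dual k A)) w
        = -(f (X w)) • v := by
      rw [endEquiv_tmul]; rfl
    rw [LinearMap.add_apply, h1, endEquiv_tmul]
    simp [Module.End.mul_apply, endEquiv_tmul, sub_eq_add_neg]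
  | add x y hx hy => rw [map_add, map_add, hx, hy, map_add]; noncomm_ring

theorem sp_abs [FiniteDimensional k A] (X Y : Module.End k A) (h : (Module.finrank k A : k) ≠ 0) :
    ∃ (g : A ⊗[k] Module.Dual k A) (f : A ⊗[k] Module.Dual k A →ₗ[k] k),
      dsumEnd X (-(Module.Dual.transpose (R := k) X)) g = 0 ∧
      dsumEnd Y (-(Module.Dual.transpose (R := k) Y)) g = 0 ∧
      (∀ v, f (dsumEnd X (-(Module.Dual.transpose (R := k) X)) v) = 0) ∧
      (∀ v, f (dsumEnd Y (-(Module.Dual.transpose (R := k) Y)) v) = 0) ∧ f g = 1 := by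
  have h1 : ∀ X : Module.End k A, dsumEnd X (-(Module.Dual.transpose (R := k) X))
      ((endEquiv A).symm 1) = 0 := by
    intro X
    apply (endEquiv A).injective
    rw [endEquiv_dsumEnd]; simp
  have h2 : ∀ (X : Module.End k A) v, ((Module.finrank k A : k)⁻¹ •
      (LinearMap.trace k A ∘ₗ (endEquiv A).toLinearMap))
      (dsumEnd X (-(Module.Dual.transpose (R := k) X)) v) = 0 := by
    intro X v
    have : (LinearMap.trace k A) (endEquiv A (dsumEnd X (-(Module.Dual.transpose (R := k) X)) v))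
        = 0 := by
      rw [endEquiv_dsumEnd, map_sub, LinearMap.trace_mul_comm, sub_self]
    simp only [LinearMap.smul_apply, LinearMap.comp_apply, LinearEquiv.coe_coe]
    rw [this, smul_zero]
  refine ⟨(endEquiv A).symm 1, (Module.finrank k A : k)⁻¹ •
      (LinearMap.trace k A ∘ₗ (endEquiv A).toLinearMap), h1 X, h1 Y, h2 X, h2 Y, ?_⟩
  simp [h]

theorem one_tensor_comm (f' : B →ₗ[k] k) (g' : B) (a : Module.End k A) (b : Module.End k B)
    (hf : ∀ v, f' (b v) = 0) (hg : b g' = 0) (t : A ⊗[k] B) :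
    (TensorProduct.map LinearMap.id (f'.smulRight g') : Module.End k (A ⊗[k] B)) (dsumEnd a b t)
      = dsumEnd a b (TensorProduct.map LinearMap.id (f'.smulRight g') t) := by
  induction t using TensorProduct.induction_on with
  | zero => simp
  | tmul v w => simp [hf, hg]
  | add x y hx hy => rw [map_add, map_add, hx, hy, map_add, map_add]

theorem map_smulRight_eq (f' : B →ₗ[k] k) (g' : B) (t : A ⊗[k] B) :
    (TensorProduct.map LinearMap.id (f'.smulRight g') : Module.End k (A ⊗[k] B)) t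
      = (contr A f' t) ⊗ₜ g' := by
  induction t using TensorProduct.induction_on with
  | zero => simp
  | tmul v w => simp [TensorProduct.smul_tmul]
  | add x y hx hy => rw [map_add, hx, hy, map_add, TensorProduct.add_tmul]

/-- closure under differences, abstract form -/
theorem diff_abs [FiniteDimensional k A] [FiniteDimensional k B] (X Y : Module.End k A)
    (X' Y' : Module.End k B) (c : k) (hc : c ≠ 0) (hA : (Module.finrank k A : k) ≠ 0)
    (h : ∀ φ ψ : Module.End k (A ⊗[k] B), (∀ v, φ (dsumEnd X X' v) = dsumEnd X X' (φ v)) →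
      (∀ v, φ (dsumEnd Y Y' v) = dsumEnd Y Y' (φ v)) →
      (∀ v, ψ (dsumEnd X X' v) = dsumEnd X X' (ψ v)) →
      (∀ v, ψ (dsumEnd Y Y' v) = dsumEnd Y Y' (ψ v)) →
      LinearMap.trace k _ (φ * ψ) = c * (LinearMap.trace k _ φ * LinearMap.trace k _ ψ))
    (g : A ⊗[k] B) (f : A ⊗[k] B →ₗ[k] k) (h1 : dsumEnd X X' g = 0) (h2 : dsumEnd Y Y' g = 0)
    (h3 : ∀ v, f (dsumEnd X X' v) = 0) (h4 : ∀ v, f (dsumEnd Y Y' v) = 0) (h5 : f g = 1)
    (g' : B) (f' : B →ₗ[k] k) (h1' : X' g' = 0) (h2' : Y' g' = 0)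
    (h3' : ∀ v, f' (X' v) = 0) (h4' : ∀ v, f' (Y' v) = 0) (h5' : f' g' = 1) :
    ∃ (g : A) (f : A →ₗ[k] k), X g = 0 ∧ Y g = 0 ∧ (∀ v, f (X v) = 0) ∧ (∀ v, f (Y v) = 0) ∧
      f g = 1 := by
  have key := h (f.smulRight g) (TensorProduct.map LinearMap.id (f'.smulRight g'))
    (by intro v; simp [h3, h1]) (by intro v; simp [h4, h2])
    (one_tensor_comm f' g' X X' h3' h1') (one_tensor_comm f' g' Y Y' h4' h2')
  rw [LinearMap.trace_smulRight, h5, LinearMap.trace_tensorProduct', LinearMap.trace_id,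
    LinearMap.trace_smulRight, h5', one_mul, mul_one] at key
  have h6 : f.smulRight g * (TensorProduct.map LinearMap.id (f'.smulRight g') :
      Module.End k (A ⊗[k] B))
      = (f ∘ₗ TensorProduct.map LinearMap.id (f'.smulRight g')).smulRight g := by
    refine TensorProduct.ext' fun v w => ?_
    simp [smul_smul]
  rw [h6, LinearMap.trace_smulRight, LinearMap.comp_apply, map_smulRight_eq] at key
  have hne : f (contr A f' g ⊗ₜ g') ≠ 0 := by
    rw [key]; exact mul_ne_zero hc hA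
  refine ⟨contr A f' g, (f (contr A f' g ⊗ₜ g'))⁻¹ • (f ∘ₗ (TensorProduct.mk k A B).flip g'),
    ?_, ?_, ?_, ?_, ?_⟩
  · rw [← contr_dsumEnd f' X X' h3' g, h1, map_zero]
  · rw [← contr_dsumEnd f' Y Y' h4' g, h2, map_zero]
  · intro v
    rw [LinearMap.smul_apply, fixed_tmul X X' f h3 h1', smul_zero]
  · intro v
    rw [LinearMap.smul_apply, fixed_tmul Y Y' f h4 h2', smul_zero]
  · simp only [LinearMap.smul_apply, LinearMap.comp_apply, LinearMap.flip_apply,
      TensorProduct.mk_apply, smul_eq_mul]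
    exact inv_mul_cancel₀ hne

end abs

namespace ARep

variable {p r s : ℕ} {k : Type u} [Field k]

theorem comm_pow {A : ARep p r s k} (φ : Module.End k A.V) (f : Module.End k A.V)
    (h : ∀ v, φ (f v) = f (φ v)) (n : ℕ) (v : A.V) : φ ((f ^ n) v) = (f ^ n) (φ v) := by
  induction n generalizing v with
  | zero => simp
  | succ n ih => rw [pow_succ, Module.End.mul_apply, ih, h, Module.End.mul_apply]

theorem comm_prim (a b : ℕ → k) {A : ARep p r s k} (φ : Module.End k A.V)
    (hx : ∀ v, φ (A.x v) = A.x (φ v)) (hy : ∀ v, φ (A.y v) = A.y (φ v)) (v : A.V) :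
    φ (prim a b A v) = prim a b A (φ v) := by
  simp [prim, frobSum, LinearMap.sum_apply, comm_pow φ _ hx, comm_pow φ _ hy]

variable [hp : Fact p.Prime] [CharP k p]

theorem charProp_of_pow {a b : ℕ → k} {A : ARep p r s k} {d : ℕ} (hd : 0 < d)
    (h : EndoTriv a b (A.pow d)) : CharProp A ∧ (Module.finrank k A.V : k) ≠ 0 := by
  obtain ⟨d', rfl⟩ := Nat.exists_eq_succ_of_ne_zero hd.ne'
  have h1 : ET (dsumEnd (prim a b A) (prim a b (A.pow d'))) := by
    have := h
    unfold EndoTriv at this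
    change ET (prim a b (tensor A (A.pow d'))) at this
    rw [prim_tensor] at this
    exact this
  obtain ⟨c, hc, hA, h2⟩ := charProp_abs _ _ h1
  exact ⟨⟨c, hc, fun φ ψ h3 h4 h5 h6 => h2 φ ψ (comm_prim a b φ h3 h4) (comm_prim a b ψ h5 h6)⟩,
    hA⟩

theorem pow_pow_comm (A : ARep p r s k) (m d : ℕ) : Isom ((A.pow m).pow d) ((A.pow d).pow m) :=
  ((isom_powMul A m d).symm.trans (isom_of_eq (by rw [Nat.mul_comm]))).trans (isom_powMul A d m)

theorem endoTriv_pow_pow {a b : ℕ → k} {A : ARep p r s k} {d : ℕ}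
    (h : EndoTriv a b (A.pow d)) (m : ℕ) : EndoTriv a b ((A.pow m).pow d) :=
  (h.pow m).isom (pow_pow_comm A m d).symm

theorem pInvertible_of_pow {a b : ℕ → k} {A : ARep p r s k} {d : ℕ} (hd : 0 < d)
    (h : EndoTriv a b (A.pow d)) : PInvertible A := by
  have h1 : EndoTriv a b ((tensor A (dual A)).pow d) :=
    (EndoTriv.tensor h (h.dual.isom (isom_powDual A d).symm)).isom
      (isom_powTensor A (dual A) d).symm
  obtain ⟨g, f, h2⟩ := sp_abs A.x A.y (charProp_of_pow hd h).2
  exact ssTrivial_of_charProp (charProp_of_pow hd h1).1 ⟨g, f, h2⟩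

theorem Sp.tensor {A B : ARep p r s k} (h : Sp A) (h' : Sp B) : Sp (ARep.tensor A B) := by
  obtain ⟨g, f, h1, h2, h3, h4, h5⟩ := h
  obtain ⟨g', f', h1', h2', h3', h4', h5'⟩ := h'
  refine ⟨g ⊗ₜ g', LinearMap.mul' k k ∘ₗ TensorProduct.map f f', dsumEnd_fixed _ _ h1 h1',
    dsumEnd_fixed _ _ h2 h2', mul_map_dsumEnd _ _ _ _ h3 h3', mul_map_dsumEnd _ _ _ _ h4 h4', ?_⟩
  have h6 : (LinearMap.mul' k k ∘ₗ TensorProduct.map f f') (g ⊗ₜ g') = f g * f' g' := by simp
  exact h6.trans (by rw [h5, h5', mul_one])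

omit [CharP k p] in
theorem Sp.triv : Sp (ARep.triv : ARep p r s k) :=
  ⟨(1 : k), (LinearMap.id : k →ₗ[k] k), rfl, rfl, fun _ => rfl, fun _ => rfl, rfl⟩

theorem Sp.pow {A : ARep p r s k} (h : Sp A) (n : ℕ) : Sp (A.pow n) := by
  induction n with
  | zero => exact Sp.triv
  | succ n ih => exact h.tensor ih

theorem Sp.pow_mul {A : ARep p r s k} {m : ℕ} (h : Sp (A.pow m)) (n : ℕ) : Sp (A.pow (m * n)) :=
  (h.pow n).isom (isom_powMul A m n).symm

theorem Sp.diff {a b : ℕ → k} {A : ARep p r s k} {d : ℕ} (hd : 0 < d)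
    (h : EndoTriv a b (A.pow d)) {m n : ℕ} (h1 : Sp (A.pow (m + n))) (h2 : Sp (A.pow n)) :
    Sp (A.pow m) := by
  have h3 := h1.isom (isom_powAdd A m n)
  have h4 : EndoTriv a b ((ARep.tensor (A.pow m) (A.pow n)).pow d) :=
    (endoTriv_pow_pow h (m + n)).isom ((isom_powAdd A m n).pow d)
  obtain ⟨c, hc, hh⟩ := (charProp_of_pow hd h4).1
  have h5 := (charProp_of_pow hd (endoTriv_pow_pow h m)).2
  obtain ⟨g, f, e1, e2, e3, e4, e5⟩ := h3
  obtain ⟨g', f', e1', e2', e3', e4', e5'⟩ := h2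
  exact diff_abs (A.pow m).x (A.pow m).y (A.pow n).x (A.pow n).y c hc h5 hh g f e1 e2 e3 e4 e5
    g' f' e1' e2' e3' e4' e5'

omit [CharP k p] in
theorem sp_iff {a b : ℕ → k} {A : ARep p r s k} (h : EndoTriv a b A) :
    Sp A ↔ HasFixed a b A ∧ HasCofixed a b A := by
  obtain ⟨e, l, D, hE⟩ := h
  constructor
  · rintro ⟨g, f, h1, h2, h3, h4, h5⟩
    have h6 := hE.inv (prim_cofixed a b A h3 h4) (prim_fixed a b A h1 h2)
    rw [h5] at h6
    refine ⟨⟨g, h1, h2, ?_⟩, ⟨f, h3, h4, ?_⟩⟩
    · rw [hE.fixed_iff (prim_fixed a b A h1 h2)]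
      exact left_ne_zero_of_mul_eq_one h6.symm
    · rw [hE.cofixed_iff (prim_cofixed a b A h3 h4)]
      exact right_ne_zero_of_mul_eq_one h6.symm
  · rintro ⟨⟨g, h1, h2, h3⟩, ⟨f, h4, h5, h6⟩⟩
    rw [hE.fixed_iff (prim_fixed a b A h1 h2)] at h3
    rw [hE.cofixed_iff (prim_cofixed a b A h4 h5)] at h6
    have h7 := hE.inv (prim_cofixed a b A h4 h5) (prim_fixed a b A h1 h2)
    have h8 : f g ≠ 0 := by rw [h7]; exact mul_ne_zero h3 h6
    refine ⟨(f g)⁻¹ • g, f, by rw [map_smul, h1, smul_zero], by rw [map_smul, h2, smul_zero],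
      h4, h5, ?_⟩
    rw [map_smul, smul_eq_mul, inv_mul_cancel₀ h8]

/-- The main theorem on orders. -/
theorem order_theorem (V : ARep p r s k) (a b : ℕ → k) (d n : ℕ) (hd : 0 < d) (hn : 0 < n)
    (hV : EndoTriv a b (V.pow d))
    (h : HasFixed a b (V.pow (d * n)) ∨ HasCofixed a b (V.pow (d * n))) :
    PInvertible V ∧ ((∀ m, 0 < m → ¬ IsSummand triv (V.pow m)) ∨
      ∃ N, 0 < N ∧ N ∣ d * n ∧ ∀ m, 0 < m →
        (IsSummand triv (V.pow m) ↔ N ∣ m) ∧ (SSTrivial (V.pow m) ↔ N ∣ m)) := by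
  classical
  refine ⟨pInvertible_of_pow hd hV, ?_⟩
  by_cases hex : ∃ m, 0 < m ∧ Sp (V.pow m)
  · right
    refine ⟨Nat.find hex, (Nat.find_spec hex).1, ?_⟩
    have hmin : ∀ m, 0 < m → Sp (V.pow m) → Nat.find hex ∣ m := by
      intro m hm hs
      have h1 : m % Nat.find hex + Nat.find hex * (m / Nat.find hex) = m := Nat.mod_add_div m _
      have h2 : Sp (V.pow (m % Nat.find hex)) := by
        refine Sp.diff hd hV ?_ (((Nat.find_spec hex).2).pow_mul (m / Nat.find hex))
        rw [h1]; exact hs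
      by_contra h3
      have h4 : 0 < m % Nat.find hex := Nat.pos_of_ne_zero fun h => h3 (Nat.dvd_of_mod_eq_zero h)
      exact Nat.find_min hex (Nat.mod_lt m (Nat.find_spec hex).1) ⟨h4, h2⟩
    have hmul : ∀ m, Nat.find hex ∣ m → Sp (V.pow m) := by
      rintro m ⟨q, rfl⟩
      exact ((Nat.find_spec hex).2).pow_mul q
    constructor
    · refine hmin (d * n) (Nat.mul_pos hd hn) ?_
      have h1 : Sp ((V.pow d).pow (Nat.find hex)) :=
        (((Nat.find_spec hex).2).pow d).isom (pow_pow_comm V _ _)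
      rw [sp_iff (hV.pow _)] at h1
      have h2 : HasFixed a b ((V.pow d).pow n) ∨ HasCofixed a b ((V.pow d).pow n) := by
        rcases h with h | h
        · exact Or.inl (h.isom (isom_powMul V d n))
        · exact Or.inr (h.isom (isom_powMul V d n))
      have h3 := both hV (Nat.find_spec hex).1 h1.1 h1.2 h2
      exact ((sp_iff (hV.pow n)).2 h3).isom (isom_powMul V d n).symm
    · intro m hm
      refine ⟨⟨fun h1 => hmin m hm (sp_of_isSummand h1), fun h1 => isSummand_of_sp (hmul m h1)⟩,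
        ⟨fun h1 => hmin m hm (sp_of_ssTrivial h1), fun h1 => ?_⟩⟩
      exact ssTrivial_of_charProp (charProp_of_pow hd (endoTriv_pow_pow hV m)).1 (hmul m h1)
  · left
    intro m hm h1
    exact hex ⟨m, hm, sp_of_isSummand h1⟩

end ARep

end Pool.Agent.Benson271
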