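import Pool.Agent.Benson271.Basic

/-! Representations of `α_p(r,s)`. -/

namespace Pool.Agent.Benson271

open TensorProduct

universe u

/-- The two operators commute. -/
def Comm {k : Type u} [Field k] {A : Type u} [AddCommGroup A] [Module k A]
    (f g : Module.End k A) : Prop := f * g = g * f

/-- The `n`-th power of the operator is zero. -/
def PowZero {k : Type u} [Field k] {A : Type u} [AddCommGroup A] [Module k A]
    (f : Module.End k A) (n : ℕ) : Prop := f ^ n = 0

/-- A finite-dimensional representation of `α_p(r,s)` over `k`: a finite-dimensional vector space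
with commuting operators `x`, `y` such that `x^(p^r) = 0` and `y^(p^s) = 0`. -/
structure ARep (p r s : ℕ) (k : Type u) [Field k] where
  /-- the underlying vector space -/
  V : Type u
  [grp : AddCommGroup V]
  [mod : Module k V]
  [fin : FiniteDimensional k V]
  /-- the action of `x` -/
  x : Module.End k V
  /-- the action of `y` -/
  y : Module.End k V
  comm' : Comm x y
  x_pow' : PowZero x (p ^ r)
  y_pow' : PowZero y (p ^ s)

attribute [instance] ARep.grp ARep.mod ARep.fin

namespace ARep

variable {p r s : ℕ} {k : Type u} [Field k]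

theorem comm (A : ARep p r s k) : A.x * A.y = A.y * A.x := A.comm'

theorem x_pow (A : ARep p r s k) : A.x ^ (p ^ r) = 0 := A.x_pow'

theorem y_pow (A : ARep p r s k) : A.y ^ (p ^ s) = 0 := A.y_pow'

theorem dsumEnd_pow_pow [hp : Fact p.Prime] [CharP k p] {A B : Type u} [AddCommGroup A]
    [Module k A] [AddCommGroup B] [Module k B] (f : Module.End k A) (g : Module.End k B) (n : ℕ) :
    (dsumEnd f g) ^ (p ^ n) = dsumEnd (f ^ (p ^ n)) (g ^ (p ^ n)) := by
  have hc : Commute (TensorProduct.map f (LinearMap.id : B →ₗ[k] B))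
      (TensorProduct.map (LinearMap.id : A →ₗ[k] A) g) := by
    refine TensorProduct.ext' fun a b => ?_
    simp [Module.End.mul_apply]
  obtain ⟨c, hc'⟩ := hc.exists_add_pow_prime_pow_eq hp.out n
  have hp0 : ((p : ℕ) : Module.End k (A ⊗[k] B)) = 0 := by
    rw [← map_natCast (algebraMap k (Module.End k (A ⊗[k] B))), CharP.cast_eq_zero, map_zero]
  rw [hp0] at hc'
  simp only [zero_mul, add_zero] at hc'
  rw [dsumEnd, hc', dsumEnd]
  congr 1
  · exact (TensorProduct.map_pow f LinearMap.id _).trans (by
      rw [show (LinearMap.id : B →ₗ[k] B) ^ p ^ n = LinearMap.id from one_pow _])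
  · exact (TensorProduct.map_pow LinearMap.id g _).trans (by
      rw [show (LinearMap.id : A →ₗ[k] A) ^ p ^ n = LinearMap.id from one_pow _])

theorem dsumEnd_zero {A B : Type u} [AddCommGroup A]
    [Module k A] [AddCommGroup B] [Module k B] :
    dsumEnd (0 : Module.End k A) (0 : Module.End k B) = 0 := by
  simp [dsumEnd]

theorem tensor_comm (A B : ARep p r s k) : Comm (dsumEnd A.x B.x) (dsumEnd A.y B.y) := by
  refine TensorProduct.ext' fun a b => ?_
  have h1 := fun v => LinearMap.congr_fun A.comm v
  have h2 := fun v => LinearMap.congr_fun B.comm v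
  simp only [Module.End.mul_apply] at h1 h2 ⊢
  simp only [dsumEnd_tmul, map_add, h1, h2]
  abel

theorem tensor_x_pow [Fact p.Prime] [CharP k p] (A B : ARep p r s k) :
    PowZero (dsumEnd A.x B.x) (p ^ r) := by
  rw [PowZero, dsumEnd_pow_pow, A.x_pow, B.x_pow, dsumEnd_zero]

theorem tensor_y_pow [Fact p.Prime] [CharP k p] (A B : ARep p r s k) :
    PowZero (dsumEnd A.y B.y) (p ^ s) := by
  rw [PowZero, dsumEnd_pow_pow, A.y_pow, B.y_pow, dsumEnd_zero]

/-- The tensor product of representations: `x` acts by `x ⊗ 1 + 1 ⊗ x`, likewise `y`. -/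
def tensor [Fact p.Prime] [CharP k p] (A B : ARep p r s k) : ARep p r s k where
  V := A.V ⊗[k] B.V
  x := dsumEnd A.x B.x
  y := dsumEnd A.y B.y
  comm' := tensor_comm A B
  x_pow' := tensor_x_pow A B
  y_pow' := tensor_y_pow A B

theorem triv_comm (k : Type u) [Field k] : Comm (0 : Module.End k k) (0 : Module.End k k) := rfl

theorem triv_pow (k : Type u) [Field k] (p r : ℕ) [Fact p.Prime] :
    PowZero (0 : Module.End k k) (p ^ r) :=
  zero_pow (pow_pos (Fact.out : p.Prime).pos _).ne'

/-- The trivial representation `k`. -/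
def triv [Fact p.Prime] : ARep p r s k where
  V := k
  x := 0
  y := 0
  comm' := triv_comm k
  x_pow' := triv_pow k p r
  y_pow' := triv_pow k p s

/-- Tensor powers. -/
def pow [Fact p.Prime] [CharP k p] (A : ARep p r s k) : ℕ → ARep p r s k
  | 0 => triv
  | n + 1 => tensor A (pow A n)

theorem neg_pow_zero {R : Type u} [Ring R] (a : R) (n : ℕ) (h : a ^ n = 0) : (-a) ^ n = 0 := by
  rw [neg_pow, h, mul_zero]

theorem neg_transpose_pow {A : Type u} [AddCommGroup A] [Module k A] (f : Module.End k A) (n : ℕ)
    (hf : f ^ n = 0) :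
    (-(Module.Dual.transpose (R := k) f : Module.End k (Module.Dual k A))) ^ n = 0 := by
  have h : ∀ m, (Module.Dual.transpose (R := k) f : Module.End k (Module.Dual k A)) ^ m
      = Module.Dual.transpose (R := k) (f ^ m) := by
    intro m
    induction m with
    | zero => ext; simp [Module.Dual.transpose_apply]
    | succ m ih =>
      rw [pow_succ, ih]
      ext φ v
      simp only [Module.End.mul_apply, Module.Dual.transpose_apply, LinearMap.comp_apply]
      rw [pow_succ', Module.End.mul_apply]
  exact neg_pow_zero (R := Module.End k (Module.Dual k A)) _ n (by rw [h, hf, map_zero])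

/-- Minus the transpose of an operator. -/
def negTranspose {A : Type u} [AddCommGroup A] [Module k A] (f : Module.End k A) :
    Module.End k (Module.Dual k A) := -(LinearMap.dualMap f)

theorem negTranspose_comm {A : Type u} [AddCommGroup A] [Module k A] (f g : Module.End k A)
    (h : f * g = g * f) : negTranspose f * negTranspose g = negTranspose g * negTranspose f := by
  refine LinearMap.ext fun φ => LinearMap.ext fun v => ?_
  have h1 := LinearMap.congr_fun h v
  simp only [Module.End.mul_apply] at h1
  simp [negTranspose, LinearMap.dualMap_apply, h1]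

theorem dual_comm (A : ARep p r s k) : Comm (negTranspose A.x) (negTranspose A.y) :=
  negTranspose_comm _ _ A.comm

theorem dual_x_pow (A : ARep p r s k) : PowZero (negTranspose A.x) (p ^ r) :=
  neg_transpose_pow _ _ A.x_pow

theorem dual_y_pow (A : ARep p r s k) : PowZero (negTranspose A.y) (p ^ s) :=
  neg_transpose_pow _ _ A.y_pow

/-- The dual representation: `x` acts by minus the transpose, likewise `y`. -/
def dual (A : ARep p r s k) : ARep p r s k where
  V := Module.Dual k A.V
  x := negTranspose A.x
  y := negTranspose A.y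
  comm' := dual_comm A
  x_pow' := dual_x_pow A
  y_pow' := dual_y_pow A

theorem dsum_comm (A B : ARep p r s k) : Comm (A.x.prodMap B.x) (A.y.prodMap B.y) := by
  have h1 := fun v => LinearMap.congr_fun A.comm v
  have h2 := fun v => LinearMap.congr_fun B.comm v
  simp only [Module.End.mul_apply] at h1 h2
  ext v
  all_goals simp [h1, h2]

theorem prodMap_pow_zero {A B : Type u} [AddCommGroup A] [Module k A] [AddCommGroup B] [Module k B]
    (f : Module.End k A) (g : Module.End k B) (n : ℕ) (hf : f ^ n = 0) (hg : g ^ n = 0) :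
    PowZero (f.prodMap g) n := by
  have h : ∀ m, (f.prodMap g) ^ m = (f ^ m).prodMap (g ^ m) := by
    intro m
    induction m with
    | zero => ext v <;> simp
    | succ m ih => rw [pow_succ, ih, pow_succ, pow_succ]; ext v <;> simp
  rw [PowZero, h, hf, hg]; ext v <;> simp

theorem dsum_x_pow (A B : ARep p r s k) : PowZero (A.x.prodMap B.x) (p ^ r) :=
  prodMap_pow_zero _ _ _ A.x_pow B.x_pow

theorem dsum_y_pow (A B : ARep p r s k) : PowZero (A.y.prodMap B.y) (p ^ s) :=
  prodMap_pow_zero _ _ _ A.y_pow B.y_pow

/-- The direct sum. -/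
def dsum (A B : ARep p r s k) : ARep p r s k where
  V := A.V × B.V
  x := A.x.prodMap B.x
  y := A.y.prodMap B.y
  comm' := dsum_comm A B
  x_pow' := dsum_x_pow A B
  y_pow' := dsum_y_pow A B

/-- Isomorphism of representations. -/
structure Iso (A B : ARep p r s k) where
  /-- the underlying linear equivalence -/
  e : A.V ≃ₗ[k] B.V
  hx : ∀ v, e (A.x v) = B.x (e v)
  hy : ∀ v, e (A.y v) = B.y (e v)

/-- `f` commutes with the actions of `x` and `y`. -/
def Equivariant (A B : ARep p r s k) (f : A.V → B.V) : Prop :=
  (∀ v, f (A.x v) = B.x (f v)) ∧ ∀ v, f (A.y v) = B.y (f v)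

/-- `A ≅ B`. -/
def Isom (A B : ARep p r s k) : Prop := ∃ e : A.V ≃ₗ[k] B.V, Equivariant A B e

theorem Iso.isom {A B : ARep p r s k} (f : Iso A B) : Isom A B := ⟨f.e, f.hx, f.hy⟩

theorem Isom.nonempty {A B : ARep p r s k} (h : Isom A B) : Nonempty (Iso A B) := by
  obtain ⟨e, h1, h2⟩ := h
  exact ⟨⟨e, h1, h2⟩⟩

/-- `B` is (isomorphic to) a direct summand of `A`. -/
def IsSummand (B A : ARep p r s k) : Prop := ∃ C : ARep p r s k, Isom A (dsum B C)

end ARep

end Pool.Agent.Benson271
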