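import Pool.Agent.Benson271.Main

/-! Direct summands, the semisimplification. -/

namespace Pool.Agent.Benson271

open TensorProduct

universe u

section abs

variable {k : Type u} [Field k] {A : Type u} [AddCommGroup A] [Module k A]

/-- restriction to the kernel of an invariant functional -/
def kerEnd (f : A →ₗ[k] k) (a : Module.End k A) (ha : ∀ v, f (a v) = 0) :
    Module.End k (LinearMap.ker f) :=
  a.restrict (fun v _ => LinearMap.mem_ker.2 (ha v))

@[simp] theorem kerEnd_coe (f : A →ₗ[k] k) (a : Module.End k A) (ha : ∀ v, f (a v) = 0)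
    (v : LinearMap.ker f) : ((kerEnd f a ha v : LinearMap.ker f) : A) = a v := rfl

theorem kerEnd_pow_coe (f : A →ₗ[k] k) (a : Module.End k A) (ha : ∀ v, f (a v) = 0) (n : ℕ)
    (v : LinearMap.ker f) : (((kerEnd f a ha ^ n) v : LinearMap.ker f) : A) = (a ^ n) v := by
  induction n generalizing v with
  | zero => simp
  | succ n ih => rw [pow_succ, Module.End.mul_apply, ih, pow_succ, Module.End.mul_apply,
      kerEnd_coe]

theorem kerEnd_pow_zero (f : A →ₗ[k] k) (a : Module.End k A) (ha : ∀ v, f (a v) = 0) (n : ℕ)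
    (h : a ^ n = 0) : (kerEnd f a ha) ^ n = 0 := by
  ext v
  rw [kerEnd_pow_coe, h]; rfl

theorem kerEnd_comm (f : A →ₗ[k] k) (a b : Module.End k A) (ha : ∀ v, f (a v) = 0)
    (hb : ∀ v, f (b v) = 0) (h : a * b = b * a) :
    kerEnd f a ha * kerEnd f b hb = kerEnd f b hb * kerEnd f a ha := by
  ext v
  have := LinearMap.congr_fun h (v : A)
  simpa using this

/-- projection to the kernel of `f` along `g` -/
def kerProj (f : A →ₗ[k] k) (g : A) (h : f g = 1) : A →ₗ[k] LinearMap.ker f :=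
  LinearMap.codRestrict (LinearMap.ker f) (LinearMap.id - f.smulRight g) (by
    intro v; simp [h])

@[simp] theorem kerProj_coe (f : A →ₗ[k] k) (g : A) (h : f g = 1) (v : A) :
    ((kerProj f g h v : LinearMap.ker f) : A) = v - f v • g := rfl

theorem kerProj_ker (f : A →ₗ[k] k) (g : A) (h : f g = 1) (w : LinearMap.ker f) :
    kerProj f g h (w : A) = w := by
  ext
  have : f (w : A) = 0 := w.2
  simp [this]

theorem kerProj_self (f : A →ₗ[k] k) (g : A) (h : f g = 1) : kerProj f g h g = 0 := by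
  ext
  simp [h]

theorem kerProj_comm (f : A →ₗ[k] k) (g : A) (h : f g = 1) (a : Module.End k A)
    (ha : ∀ v, f (a v) = 0) (hg : a g = 0) (v : A) :
    kerProj f g h (a v) = kerEnd f a ha (kerProj f g h v) := by
  ext
  simp [ha, hg]

/-- the splitting -/
def splitEquiv (f : A →ₗ[k] k) (g : A) (h : f g = 1) : A ≃ₗ[k] (k × LinearMap.ker f) :=
  LinearEquiv.ofLinearMap (f.prod (kerProj f g h))
    (LinearMap.coprod (LinearMap.toSpanSingleton k A g) (LinearMap.ker f).subtype)
    (by
      refine LinearMap.ext ?_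
      rintro ⟨c, w⟩
      have hw : f (w : A) = 0 := w.2
      refine Prod.ext ?_ (Subtype.ext ?_)
      · simp [hw, h]
      · simp [hw, h])
    (by
      refine LinearMap.ext fun v => ?_
      simp)

theorem splitEquiv_comm (f : A →ₗ[k] k) (g : A) (h : f g = 1) (a : Module.End k A)
    (ha : ∀ v, f (a v) = 0) (hg : a g = 0) (v : A) :
    splitEquiv f g h (a v)
      = ((0 : Module.End k k).prodMap (kerEnd f a ha)) (splitEquiv f g h v) := by
  refine Prod.ext (ha v) ?_
  exact kerProj_comm f g h a ha hg v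

theorem summand_trace [FiniteDimensional k A] (f : A →ₗ[k] k) (g : A) (h5 : f g = 1) {c : k}
    (hc : c ≠ 0) {B C : Type u} [AddCommGroup B] [Module k B] [AddCommGroup C] [Module k C]
    [FiniteDimensional k B] (e : LinearMap.ker f ≃ₗ[k] (B × C)) {X Y : Module.End k A}
    (h3 : ∀ v, f (X v) = 0) (h4 : ∀ v, f (Y v) = 0) (h1 : X g = 0) (h2 : Y g = 0)
    (bx : Module.End k B) (cx : Module.End k C) (b_y : Module.End k B) (cy : Module.End k C)
    (hex : ∀ v, e (kerEnd f X h3 v) = (bx.prodMap cx) (e v))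
    (hey : ∀ v, e (kerEnd f Y h4 v) = (b_y.prodMap cy) (e v))
    (hA : ∀ φ ψ : Module.End k A, (∀ v, φ (X v) = X (φ v)) →
    (∀ v, φ (Y v) = Y (φ v)) → (∀ v, ψ (X v) = X (ψ v)) → (∀ v, ψ (Y v) = Y (ψ v)) →
    LinearMap.trace k A (φ * ψ) = c * (LinearMap.trace k A φ * LinearMap.trace k A ψ)) :
    (Module.finrank k B : k) = 0 := by
  let ι : B →ₗ[k] A := (LinearMap.ker f).subtype ∘ₗ e.symm.toLinearMap ∘ₗ (LinearMap.inl k B C)
  let π : A →ₗ[k] B := (LinearMap.fst k B C) ∘ₗ e.toLinearMap ∘ₗ kerProj f g h5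
  have hπι : ∀ v, π (ι v) = v := by
    intro v
    simp [π, ι, kerProj_ker]
  have hsx : ∀ w, e.symm ((bx.prodMap cx) w) = kerEnd f X h3 (e.symm w) := by
    intro w
    apply e.injective
    rw [hex]; simp
  have hsy : ∀ w, e.symm ((b_y.prodMap cy) w) = kerEnd f Y h4 (e.symm w) := by
    intro w
    apply e.injective
    rw [hey]; simp
  have hιx : ∀ v, ι (bx v) = X (ι v) := by
    intro v
    have := hsx (v, 0)
    simp only [LinearMap.prodMap_apply, map_zero] at this
    simp [ι, this]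
  have hιy : ∀ v, ι (b_y v) = Y (ι v) := by
    intro v
    have := hsy (v, 0)
    simp only [LinearMap.prodMap_apply, map_zero] at this
    simp [ι, this]
  have hπx : ∀ v, π (X v) = bx (π v) := by
    intro v
    simp [π, kerProj_comm f g h5 X h3 h1, hex]
  have hπy : ∀ v, π (Y v) = b_y (π v) := by
    intro v
    simp [π, kerProj_comm f g h5 Y h4 h2, hey]
  have hπg : π g = 0 := by
    simp [π, kerProj_self]
  have key := hA (ι ∘ₗ π) (f.smulRight g) (by intro v; simp [hπx, hιx])
    (by intro v; simp [hπy, hιy]) (by intro v; simp [h3, h1]) (by intro v; simp [h4, h2])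
  have h0 : (ι ∘ₗ π : Module.End k A) * f.smulRight g = 0 := by
    ext v
    simp [hπg]
  rw [h0, map_zero, LinearMap.trace_smulRight, h5, mul_one, LinearMap.trace_comp_comm'] at key
  have hid : π ∘ₗ ι = LinearMap.id := LinearMap.ext hπι
  rw [hid, LinearMap.trace_id] at key
  rcases mul_eq_zero.1 key.symm with h | h
  · exact absurd h hc
  · exact h

end abs

namespace ARep

variable {p r s : ℕ} {k : Type u} [Field k]

/-- `A` becomes isomorphic to the unit object in the semisimplification: `A ≅ k ⊕ C` where every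
direct summand of `C` has dimension divisible by `p`. -/
def SSTrivial [Fact p.Prime] (A : ARep p r s k) : Prop :=
  ∃ C : ARep p r s k, Isom A (dsum triv C) ∧ ∀ B, IsSummand B C → p ∣ Module.finrank k B.V

/-- `V` is `p'`-invertible: `V ⊗ V*` is `k` plus a representation all of whose direct summands
have dimension divisible by `p`. -/
def PInvertible [Fact p.Prime] [CharP k p] (V : ARep p r s k) : Prop :=
  SSTrivial (tensor V (dual V))

/-- The trivial representation is split off by a fixed vector and an invariant functional. -/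
def Sp (A : ARep p r s k) : Prop :=
  ∃ (g : A.V) (f : A.V →ₗ[k] k), A.x g = 0 ∧ A.y g = 0 ∧ (∀ v, f (A.x v) = 0) ∧
    (∀ v, f (A.y v) = 0) ∧ f g = 1

/-- sub-representation on the kernel of an invariant functional -/
def kerRep (A : ARep p r s k) (f : A.V →ₗ[k] k) (hx : ∀ v, f (A.x v) = 0)
    (hy : ∀ v, f (A.y v) = 0) : ARep p r s k where
  V := LinearMap.ker f
  x := kerEnd f A.x hx
  y := kerEnd f A.y hy
  comm' := kerEnd_comm f A.x A.y hx hy A.comm
  x_pow' := kerEnd_pow_zero f A.x hx _ A.x_pow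
  y_pow' := kerEnd_pow_zero f A.y hy _ A.y_pow

theorem Sp.isom {A B : ARep p r s k} (h : Sp A) (h' : Isom A B) : Sp B := by
  obtain ⟨e⟩ := h'.nonempty
  obtain ⟨g, f, h1, h2, h3, h4, h5⟩ := h
  refine ⟨e.e g, f ∘ₗ e.e.symm.toLinearMap, by rw [← e.hx, h1, map_zero],
    by rw [← e.hy, h2, map_zero], ?_, ?_, ?_⟩
  · intro v
    have := e.symm.hx v
    change e.e.symm (B.x v) = A.x (e.e.symm v) at this
    simp [this, h3]
  · intro v
    have := e.symm.hy v
    change e.e.symm (B.y v) = A.y (e.e.symm v) at this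
    simp [this, h4]
  · simpa using h5

section

variable [hp : Fact p.Prime]

theorem sp_of_isSummand {A : ARep p r s k} (h : IsSummand triv A) : Sp A := by
  obtain ⟨C, hC⟩ := h
  refine Sp.isom ?_ hC.symm
  refine ⟨((1 : k), (0 : C.V)), LinearMap.fst k k C.V, ?_, ?_, fun v => rfl, fun v => rfl, rfl⟩
  · exact Prod.ext rfl (map_zero C.x)
  · exact Prod.ext rfl (map_zero C.y)

theorem isom_kerRep {A : ARep p r s k} {g : A.V} {f : A.V →ₗ[k] k} (h1 : A.x g = 0)
    (h2 : A.y g = 0) (h3 : ∀ v, f (A.x v) = 0) (h4 : ∀ v, f (A.y v) = 0) (h5 : f g = 1) :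
    Isom A (dsum triv (kerRep A f h3 h4)) :=
  Iso.isom ⟨splitEquiv f g h5, splitEquiv_comm f g h5 A.x h3 h1, splitEquiv_comm f g h5 A.y h4 h2⟩

theorem isSummand_of_sp {A : ARep p r s k} (h : Sp A) : IsSummand triv A := by
  obtain ⟨g, f, h1, h2, h3, h4, h5⟩ := h
  exact ⟨_, isom_kerRep h1 h2 h3 h4 h5⟩

theorem sp_of_ssTrivial {A : ARep p r s k} (h : SSTrivial A) : Sp A := by
  obtain ⟨C, hC, -⟩ := h
  exact sp_of_isSummand ⟨C, hC⟩

/-- On the endomorphism algebra of `A` the trace is multiplicative up to a nonzero constant. -/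
def CharProp (A : ARep p r s k) : Prop :=
  ∃ c : k, c ≠ 0 ∧ ∀ φ ψ : Module.End k A.V, (∀ v, φ (A.x v) = A.x (φ v)) →
    (∀ v, φ (A.y v) = A.y (φ v)) → (∀ v, ψ (A.x v) = A.x (ψ v)) → (∀ v, ψ (A.y v) = A.y (ψ v)) →
    LinearMap.trace k A.V (φ * ψ) = c * (LinearMap.trace k A.V φ * LinearMap.trace k A.V ψ)

theorem ssTrivial_of_charProp [CharP k p] {A : ARep p r s k} (hA : CharProp A) (h : Sp A) :
    SSTrivial A := by
  obtain ⟨c, hc, hA⟩ := hA
  obtain ⟨g, f, h1, h2, h3, h4, h5⟩ := h
  refine ⟨kerRep A f h3 h4, isom_kerRep h1 h2 h3 h4 h5, ?_⟩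
  rintro B ⟨C, hBC⟩
  obtain ⟨e⟩ := hBC.nonempty
  have key := summand_trace f g h5 hc e.e (X := A.x) (Y := A.y) h3 h4 h1 h2 B.x C.x B.y C.y
    e.hx e.hy hA
  exact (CharP.cast_eq_zero_iff k p _).1 key

end

end ARep

end Pool.Agent.Benson271
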